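import Mathlib
import Pool.Agent.H540R2.Circ
import Pool.Agent.H416R3.TD.Defs
import Pool.Agent.H416R3.TD.Real

/-!
# Balancing circuits of small tree-depth

The gates of a circuit, joined by the wires between them, form an undirected graph (the input
variables and the constants are not vertices of it). Circuits with `S` gates whose graph has
tree-depth `O(log S)` can be balanced: they have equivalent circuits of depth `O(log S)` and
polynomial size. In general the depth is `O(d + log S)` where `d` is the tree-depth. Conversely a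
circuit of depth `D` has an equivalent circuit of tree-depth at most `D + 1` with fewer than
`2 ^ (D + 1)` gates, so the question whether all circuits can be balanced is equivalent to the
question whether all circuits have equivalent circuits of polynomial size and of logarithmic
tree-depth.

Proof: the values of the gate that is deleted and of its two operands are guessed; with these
values fixed the remaining graph falls apart, and the conditions for the parts are checked
separately. This gives a formula with at most `4 * 8 ^ d * S` gates, which is balanced with the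
theorem of Spira.
-/

set_option autoImplicit false

namespace Pool.Agent.Results.MP_7713c5_lc.TreeDepthBalancing

open Pool.Agent.H540R2 Pool.Agent.H416R3.TD

theorem result :
    -- (1) depth O(tree-depth + log S)
    (∀ (n : ℕ) (C : Circuit n) (S d : ℕ), 2 ≤ S → C.size ≤ S →
      TreeDepth C (Finset.range C.size) d →
      ∃ C' : Circuit n, C.Equiv C' ∧ C'.depth ≤ 9 * d + 13 * Nat.log 2 S ∧
        C'.size ≤ 2 ^ (9 * d + 13 * Nat.log 2 S)) ∧
    -- (2) logarithmic tree-depth
    (∀ (a n : ℕ) (C : Circuit n) (S : ℕ), 2 ≤ S → C.size ≤ S →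
      TreeDepth C (Finset.range C.size) (a * Nat.log 2 S) →
      ∃ C' : Circuit n, C.Equiv C' ∧ C'.depth ≤ (9 * a + 13) * Nat.log 2 S ∧
        C'.size ≤ S ^ (9 * a + 13)) ∧
    -- (3) balanced separators with at most k gates
    (∀ (k n : ℕ) (C : Circuit n) (S : ℕ), 1 ≤ k → 2 ≤ S → C.size ≤ S →
      (∀ U : Finset ℕ, U ⊆ Finset.range C.size → 2 ≤ U.card →
        ∃ X V W : Finset ℕ, U = X ∪ (V ∪ W) ∧ Disjoint X (V ∪ W) ∧ Disjoint V W ∧ X.card ≤ k ∧
          3 * V.card ≤ 2 * U.card ∧ 3 * W.card ≤ 2 * U.card ∧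
          ∀ i ∈ V, ∀ j ∈ W, ¬ Joined C i j) →
      ∃ C' : Circuit n, C.Equiv C' ∧ C'.depth ≤ (36 * k + 13) * Nat.log 2 S ∧
        C'.size ≤ S ^ (36 * k + 13)) ∧
    -- (4) from small depth to small tree-depth
    (∀ (n : ℕ) (C : Circuit n), ∃ C' : Circuit n, C.Equiv C' ∧ C'.depth ≤ C.depth + 1 ∧
      C'.size < 2 ^ (C.depth + 1) ∧ TreeDepth C' (Finset.range C'.size) (C.depth + 1)) ∧
    -- (5) the question and its form with tree-depth instead of depth
    ((∃ c : ℝ, 1 ≤ c ∧ ∀ (n : ℕ) (C : Circuit n), 2 ≤ C.size →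
      ∃ C' : Circuit n, C.Equiv C' ∧ (C'.depth : ℝ) ≤ c * Real.log C.size ∧
        (C'.size : ℝ) ≤ (C.size : ℝ) ^ c) ↔
    (∃ c : ℝ, 1 ≤ c ∧ ∀ (n : ℕ) (C : Circuit n), 2 ≤ C.size →
      ∃ (C' : Circuit n) (d : ℕ), C.Equiv C' ∧ TreeDepth C' (Finset.range C'.size) d ∧
        (d : ℝ) ≤ c * Real.log C.size ∧ (C'.size : ℝ) ≤ (C.size : ℝ) ^ c)) :=
  ⟨fun _ C S d h1 h2 h3 => main C S d h1 h2 h3,
    fun a _ C S h1 h2 h3 => log_class a C S h1 h2 h3,
    fun k _ C S hk h1 h2 h3 => sep_class k hk C S h1 h2 h3,
    fun _ C => shallow C,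
    q1_iff⟩

end Pool.Agent.Results.MP_7713c5_lc.TreeDepthBalancing
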